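import Pool.Agent.W_a4f561_P97.Prune97
import Pool.Agent.W_a4f561_h26.Bas

/-!
MP_a4f561_co (polylog pages): paths in a cell, the lens property, concatenation of two routes.
-/

set_option autoImplicit false

namespace Pool.Agent.W_a4f561_P97

open Pool.Agent.W_a4f561_h26 Pool.Agent.W_a4f561_P73

variable {V : Type}

/-- `q` has a path in `D1` to `BS`. -/
def RP (G : Bars V) (σ : St V) (D1 BS : Set V) (q : V) : Prop :=
  ∃ π, Fin' G σ π ∧ ∃ v, v ∈ BS ∧ Orb π q v ∧ ∀ u, Orb π q u → G.t u < G.t v → u ∈ D1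

theorem t_le_ch {G : Bars V} {π : V → V} (hπ : Ch G π) (v : V) : G.t v ≤ G.t (π v) := by
  have := orb_t hπ (orb_step (orb_refl π v))
  exact this

/-- Concatenation at `e`. -/
theorem cat {G : Bars V} {σ : St V} {ρ1 ρ2 : V → V} (h1 : Fin' G σ ρ1) (h2 : Fin' G σ ρ2) {q e : V}
    (he : Orb ρ1 q e) : ∃ ρ, Fin' G σ ρ ∧ Orb ρ q e ∧ (∀ u, Orb ρ2 e u → Orb ρ e u) ∧
      (∀ u, Orb ρ q u → (Orb ρ1 q u ∧ G.t u ≤ G.t e) ∨ Orb ρ2 e u) ∧
      (∀ u, Orb ρ1 q u → G.t u ≤ G.t e → Orb ρ q u) := by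
  classical
  set ρ : V → V := fun v => if G.t v < G.t e then ρ1 v else ρ2 v with hρ
  have lt1 : ∀ v, G.t v < G.t e → ρ v = ρ1 v := fun v h => by simp [hρ, h]
  have ge2 : ∀ v, ¬ G.t v < G.t e → ρ v = ρ2 v := fun v h => by simp [hρ, h]
  have hch : Ch G ρ := by
    refine ⟨?_, ?_, fun v hv => ?_⟩
    · by_cases h : G.t G.bot < G.t e
      · rw [lt1 _ h]; exact h1.1.1
      · rw [ge2 _ h]; exact h2.1.1
    · by_cases h : G.t G.top < G.t e
      · rw [lt1 _ h]; exact h1.1.2.1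
      · rw [ge2 _ h]; exact h2.1.2.1
    · by_cases h : G.t v < G.t e
      · rw [lt1 _ h]; exact h1.1.2.2 v hv
      · rw [ge2 _ h]; exact h2.1.2.2 v hv
  have hfin : Fin' G σ ρ := by
    refine ⟨hch, fun v hv => ?_⟩
    by_cases h : G.t v < G.t e
    · rw [lt1 _ h]; exact h1.2 v hv
    · rw [ge2 _ h]; exact h2.2 v hv
  have c1 : ∀ k, (∀ j, j < k → G.t (ρ1^[j] q) < G.t e) → ρ^[k] q = ρ1^[k] q := by
    intro k
    induction k with
    | zero => intro _; rfl
    | succ k ih =>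
      intro h
      rw [Function.iterate_succ_apply', Function.iterate_succ_apply', ih fun j hj => h j (by omega),
        lt1 _ (h k (by omega))]
  have c1' : ∀ u, Orb ρ1 q u → G.t u ≤ G.t e → Orb ρ q u := by
    rintro u ⟨k, hk⟩ hu
    have hex : ∃ k, ρ1^[k] q = u := ⟨k, hk⟩
    obtain ⟨k0, hk0, hmin⟩ : ∃ k0, ρ1^[k0] q = u ∧ ∀ j, j < k0 → ρ1^[j] q ≠ u :=
      ⟨Nat.find hex, Nat.find_spec hex, fun j hj => Nat.find_min hex hj⟩
    refine ⟨k0, ?_⟩
    rw [c1 k0 fun j hj => ?_, hk0]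
    have h3 : Orb ρ1 (ρ1^[j] q) u := ⟨k0 - j, by rw [← Function.iterate_add_apply, Nat.sub_add_cancel hj.le, hk0]⟩
    have h4 : G.t (ρ1^[j] q) ≤ G.t u := orb_t h1.1 h3
    rcases h4.lt_or_eq with h5 | h5
    · exact h5.trans_le hu
    · exact absurd (G.t_inj h5) (hmin j hj)
  have c2 : ∀ u, Orb ρ2 e u → Orb ρ e u := by
    rintro u ⟨k, hk⟩
    refine ⟨k, ?_⟩
    rw [← hk]
    clear hk
    induction k with
    | zero => rfl
    | succ k ih =>
      rw [Function.iterate_succ_apply', Function.iterate_succ_apply', ih, ge2]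
      have := orb_t h2.1 (⟨k, rfl⟩ : Orb ρ2 e (ρ2^[k] e))
      omega
  refine ⟨ρ, hfin, c1' e he le_rfl, c2, ?_, c1'⟩
  rintro u ⟨k, hk⟩
  rw [← hk]
  clear hk
  induction k with
  | zero => exact Or.inl ⟨orb_refl _ _, orb_t h1.1 he⟩
  | succ k ih =>
    rw [Function.iterate_succ_apply']
    rcases ih with ⟨k1, k2⟩ | k1
    · rcases k2.lt_or_eq with k3 | k3
      · rw [lt1 _ k3]
        left
        refine ⟨orb_trans k1 (orb_step (orb_refl _ _)), ?_⟩
        obtain ⟨m, hm⟩ := orb_comp h1.1 k1 he k2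
        cases m with
        | zero =>
          have : G.t (ρ^[k] q) = G.t e := by rw [← hm]; rfl
          omega
        | succ m =>
          refine orb_t h1.1 ⟨m, ?_⟩
          rw [← hm]
          rfl
      · have k4 : ρ^[k] q = e := G.t_inj k3
        rw [k4, ge2 _ (lt_irrefl _)]
        right
        exact orb_step (orb_refl _ _)
    · right
      have := orb_t h2.1 k1
      rw [ge2 _ (by omega)]
      exact orb_trans k1 (orb_step (orb_refl _ _))

/-- A route which leaves `C` in `BS ∪ L` gives a path to `BS`. -/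
theorem rp_of_lv {G : Bars V} {σ : St V} {D1 BS L C : Set V} (hC : C ⊆ D1) (hL : ∀ q ∈ L, RP G σ D1 BS q)
    {ρ : V → V} (hρ : Fin' G σ ρ) {q : V} (h : LV G C (BS ∪ L) ρ q) : RP G σ D1 BS q := by
  obtain ⟨e, he, heC, h1, h2⟩ := h
  rcases he with he | he
  · exact ⟨ρ, hρ, e, he, h1, fun u hu hu' => hC (h2 u hu hu')⟩
  · obtain ⟨π, hπ, v, hv, k1, k2⟩ := hL e he
    obtain ⟨ρ', f1, f2, f3, f4, -⟩ := cat hρ hπ h1
    refine ⟨ρ', f1, v, hv, orb_trans f2 (f3 v k1), fun u hu hu' => ?_⟩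
    rcases f4 u hu with ⟨k3, k4⟩ | k3
    · rcases k4.lt_or_eq with k5 | k5
      · exact hC (h2 u k3 k5)
      · have : u = e := G.t_inj k5
        rw [this]
        rw [this] at hu'
        exact k2 e (orb_refl _ _) hu'
    · exact k2 u k3 hu'

theorem pd_mono {G : Bars V} {π : V → V} {D D' : Set V} (h : D ⊆ D') {x w : V} (hp : PD G D π x w) :
    PD G D' π x w := ⟨hp.1, fun u hu hu' => h (hp.2 u hu hu')⟩

theorem pd_start {G : Bars V} {π : V → V} {D : Set V} (hπ : Ch G π) {x w : V} (hp : PD G D π x w) : x ∈ D :=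
  hp.2 x (orb_refl _ _) (orb_t hπ hp.1)

/-- The host at a time before the death of `w` on the route is on the route before `w`. -/
theorem host_le {G : Bars V} {π : V → V} (hπ : Ch G π) {x w : V} (hw : Orb π x w) (hi : G.inn w) {τ : ℕ}
    (hb : G.b x ≤ τ) (hτ : τ ≤ G.t w) (hN : G.t w ≤ G.N) : Orb π (host G π x τ) w := by
  have h1 := host_add hπ hb hτ hN
  rw [host_t hπ hw hi] at h1
  have h2 := host_orb G π (host G π x τ) (G.t w)
  rw [h1] at h2
  exact h2

/-- The host of a path in `D` is in `D`. -/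
theorem pd_host {G : Bars V} {π : V → V} {D : Set V} (hπ : Ch G π) {x w : V} (hp : PD G D π x w) (hi : G.inn w)
    {τ : ℕ} (hb : G.b x ≤ τ) (hτ : τ ≤ G.t w) (hN : G.t w ≤ G.N) : host G π x τ ∈ D :=
  hp.2 _ (host_orb G π x τ) (orb_t hπ (host_le hπ hp.1 hi hb hτ hN))

/-- The rest of a path in `D`. -/
theorem pd_rest {G : Bars V} {π : V → V} {D : Set V} (hπ : Ch G π) {x w : V} (hp : PD G D π x w) (hi : G.inn w)
    {τ : ℕ} (hb : G.b x ≤ τ) (hτ : τ ≤ G.t w) (hN : G.t w ≤ G.N) : PD G D π (host G π x τ) w :=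
  ⟨host_le hπ hp.1 hi hb hτ hN, fun u hu hu' => hp.2 u (orb_trans (host_orb G π x τ) hu) hu'⟩

end Pool.Agent.W_a4f561_P97
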