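import Pool.Agent.W_a4f561_P97.Cat97

/-!
MP_a4f561_co (polylog pages): the new label. `C` = largest good subset of the vertices of the cell above the path
(`host σ.pi z0`), with exit set `BS ∪ L` (`BS` = path up to the deadline, `L` = earlier labels of the same phase and
side). `C` is closed downwards, has the lens property, and the rest of the cell keeps it.
-/

set_option autoImplicit false

namespace Pool.Agent.W_a4f561_P97

open Pool.Agent.W_a4f561_h26 Pool.Agent.W_a4f561_P73

variable {V : Type} {Ω : Type}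

/-- The situation in which a new label is made: window `(s, e]`, cell `D`. -/
structure NL (G : Bars V) (σ : St V) (ρ : Ω → V → V) (P : (Ω → Prop) → ℝ) (k : ℝ) (z0 : V)
    (D1 D BS L : Set V) (si s e : ℕ) : Prop where
  fin : ∀ ω, Fin' G σ (ρ ω)
  pm : ∀ A B : Ω → Prop, (∀ ω, A ω → B ω) → P A ≤ P B
  p0 : P (fun _ => False) ≤ 0
  p1 : k ≤ P (fun _ => True)
  k0 : 0 < k
  ch : Ch G σ.pi
  zb : G.b z0 ≤ s
  sis : si ≤ s
  eN : e < G.N
  bh : ∀ τ, s < τ → τ ≤ e → host G σ.pi z0 τ ∈ BS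
  BSt : ∀ v ∈ BS, G.t v ≤ e
  BSh : ∀ v ∈ BS, Orb σ.pi z0 v
  BSi : ∀ v ∈ BS, G.inn v
  DBS : ∀ v ∈ D, v ∉ BS
  DL : ∀ v ∈ D, v ∉ L
  DD1 : D ⊆ D1
  Di : ∀ v ∈ D, G.inn v
  lens : LENS G σ D si
  bt : ∀ q τ z, RP G σ D1 BS q → s < τ → τ ≤ e → G.al q τ → G.al z τ →
    G.r (host G σ.pi z0 τ) < G.r z → G.r z < G.r q → z ∈ D ∨ z ∈ L ∨ z ∈ BS
  rpL : ∀ q ∈ L, RP G σ D1 BS q
  dcL : ∀ q ∈ L, ∃ sq, sq < G.t q ∧ ∀ τ, sq < τ → G.al q τ → ∀ z, G.al z τ →
    G.r (host G σ.pi z0 τ) < G.r z → G.r z < G.r q → z ∈ L ∨ z ∈ BS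
  Lt : ∀ q ∈ L, G.t q < e

/-- The vertices of the cell `D` above the path which are alive after time `s`. -/
def C0 (G : Bars V) (σ : St V) (z0 : V) (D : Set V) (s e : ℕ) : Set V :=
  {z | z ∈ D ∧ s < G.t z ∧ ∃ τ, s < τ ∧ τ ≤ e ∧ G.al z τ ∧ G.r (host G σ.pi z0 τ) < G.r z}

/-- The new label. -/
def nlC (G : Bars V) (σ : St V) (ρ : Ω → V → V) (P : (Ω → Prop) → ℝ) (k : ℝ) (z0 : V)
    (D BS L : Set V) (s e : ℕ) : Set V := Mx G ρ P (BS ∪ L) k (C0 G σ z0 D s e)

/-- The downward closure of the new label. -/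
def Cp (G : Bars V) (σ : St V) (ρ : Ω → V → V) (P : (Ω → Prop) → ℝ) (k : ℝ) (z0 : V)
    (D BS L : Set V) (s e : ℕ) : Set V :=
  {z | z ∈ nlC G σ ρ P k z0 D BS L s e ∨ (z ∈ D ∧ ∃ τ, s < τ ∧ τ ≤ e ∧ G.al z τ ∧
    G.r (host G σ.pi z0 τ) < G.r z ∧ ∃ q, (q ∈ nlC G σ ρ P k z0 D BS L s e ∨ q ∈ L ∨ q ∈ BS) ∧ G.al q τ ∧
    G.r z < G.r q)}

/-- The next vertex. -/
theorem orb_head' {π : V → V} {z u : V} (h : Orb π z u) : u = z ∨ Orb π (π z) u := by
  obtain ⟨k, hk⟩ := h
  cases k with
  | zero => exact Or.inl hk.symm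
  | succ k => exact Or.inr ⟨k, hk⟩

/-- One step of a route: the vertices before the host at `τ + 1`. -/
theorem step_cases {G : Bars V} {π : V → V} (hπ : Ch G π) {z : V} {τ : ℕ} (hz : G.al z τ) (h2 : τ + 1 ≤ G.N) :
    Orb π z (host G π z (τ + 1)) ∧ ∀ u, Orb π z u → u = z ∨ Orb π (host G π z (τ + 1)) u := by
  have h0 : host G π z τ = z := host_self hπ hz.2
  rcases host_step hπ hz.1 h2 with ⟨h3, -⟩ | ⟨h3, -⟩
  · rw [h0] at h3
    rw [h3]
    exact ⟨orb_refl _ _, fun u hu => Or.inr hu⟩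
  · rw [h0] at h3
    rw [h3]
    exact ⟨orb_step (orb_refl _ _), fun u hu => orb_head' hu⟩

variable {G : Bars V} {σ : St V} {ρ : Ω → V → V} {P : (Ω → Prop) → ℝ} {k : ℝ} {z0 : V}
  {D1 D BS L : Set V} {si s e : ℕ}

theorem nl_S (h : NL G σ ρ P k z0 D1 D BS L si s e) : ∀ u ∈ BS ∪ L, u ∉ D := by
  rintro u (hu | hu) h'
  · exact h.DBS u h' hu
  · exact h.DL u h' hu

theorem nlC_sub (_ : NL G σ ρ P k z0 D1 D BS L si s e) : nlC G σ ρ P k z0 D BS L s e ⊆ D :=
  fun _ hz => (mx_sub hz).1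

theorem nlC_good (h : NL G σ ρ P k z0 D1 D BS L si s e) :
    ∀ z ∈ nlC G σ ρ P k z0 D BS L s e,
      k ≤ P (fun ω => LV G (nlC G σ ρ P k z0 D BS L s e) (BS ∪ L) (ρ ω) z) :=
  mx_good h.pm fun u hu h' => nl_S h u hu h'.1

theorem nlC_lv (h : NL G σ ρ P k z0 D1 D BS L si s e) {z : V} (hz : z ∈ nlC G σ ρ P k z0 D BS L s e) :
    ∃ ω, LV G (nlC G σ ρ P k z0 D BS L s e) (BS ∪ L) (ρ ω) z := by
  by_contra hc
  push Not at hc
  have h1 := nlC_good h z hz
  have h2 := h.pm _ (fun _ => False) (fun ω h' => hc ω h')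
  have h3 := h.p0
  have h4 := h.k0
  linarith

theorem nlC_rp (h : NL G σ ρ P k z0 D1 D BS L si s e) {z : V} (hz : z ∈ nlC G σ ρ P k z0 D BS L s e) :
    RP G σ D1 BS z := by
  obtain ⟨ω, hω⟩ := nlC_lv h hz
  exact rp_of_lv ((nlC_sub h).trans h.DD1) h.rpL (h.fin ω) hω

theorem rp_t (h : NL G σ ρ P k z0 D1 D BS L si s e) {q : V} (hq : RP G σ D1 BS q) : G.t q ≤ e := by
  obtain ⟨π, hπ, v, hv, h1, -⟩ := hq
  exact (orb_t hπ.1 h1).trans (h.BSt v hv)

theorem nlC_t (h : NL G σ ρ P k z0 D1 D BS L si s e) {z : V} (hz : z ∈ nlC G σ ρ P k z0 D BS L s e) :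
    s < G.t z ∧ G.t z < e := by
  refine ⟨(mx_sub hz).2.1, ?_⟩
  obtain ⟨π, hπ, v, hv, h1, -⟩ := nlC_rp h hz
  have h2 := orb_t hπ.1 h1
  have h3 := h.BSt v hv
  rcases h2.lt_or_eq with h4 | h4
  · omega
  · have : z = v := G.t_inj h4
    rw [← this] at hv
    exact absurd hv (h.DBS z (nlC_sub h hz))

/-- A vertex of `BS` which is alive above the host at time `τ` is alive at `τ + 1`. -/
theorem bs_t (h : NL G σ ρ P k z0 D1 D BS L si s e) {q z : V} {τ : ℕ} (hq : q ∈ BS) (ha : G.al q τ)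
    (h1 : G.r (host G σ.pi z0 τ) < G.r z) (h2 : G.r z < G.r q) : τ < G.t q := by
  rcases ha.2.lt_or_eq with h3 | h3
  · exact h3
  · exfalso
    have h4 := host_t h.ch (h.BSh q hq) (h.BSi q hq)
    rw [← h3] at h4
    rw [h4] at h1
    omega

/-- SQUEEZE: a route between the path and a good vertex arrives in `BS ∪ L`, and is in the closure before. -/
theorem squeeze (h : NL G σ ρ P k z0 D1 D BS L si s e) (ω : Ω) : ∀ n τ, e - τ = n → s < τ → τ ≤ e →
    ∀ z q, G.al z τ → G.al q τ → G.r (host G σ.pi z0 τ) < G.r z → G.r z < G.r q →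
    (q ∈ L ∨ q ∈ BS ∨ (q ∈ nlC G σ ρ P k z0 D BS L s e ∧
      LV G (nlC G σ ρ P k z0 D BS L s e) (BS ∪ L) (ρ ω) q)) →
    ∃ e' ∈ BS ∪ L, Orb (ρ ω) z e' ∧ ∀ u, Orb (ρ ω) z u → G.t u < G.t e' → u ∈ Cp G σ ρ P k z0 D BS L s e := by
  intro n
  induction n with
  | zero =>
    intro τ hn hs he z q hz hq h1 h2 hc
    have hτ : τ = e := by omega
    have hqe : τ < G.t q := by
      rcases hc with hc | hc | ⟨hc, -⟩
      · exfalso
        have := h.Lt q hc
        have := hq.2
        omega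
      · exact bs_t h hc hq h1 h2
      · exfalso
        have := (nlC_t h hc).2
        have := hq.2
        omega
    exfalso
    rcases hc with hc | hc | ⟨hc, -⟩
    · have := h.Lt q hc
      omega
    · have := h.BSt q hc
      omega
    · have := (nlC_t h hc).2
      omega
  | succ n ih =>
    intro τ hn hs he z q hz hq h1 h2 hc
    have hτe : τ + 1 ≤ e := by omega
    have hN : τ + 1 ≤ G.N := by have := h.eN; omega
    have hch := (h.fin ω).1
    have hzT : ∀ x, x ∈ BS ∪ L → x = z → ∃ e' ∈ BS ∪ L, Orb (ρ ω) z e' ∧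
        ∀ u, Orb (ρ ω) z u → G.t u < G.t e' → u ∈ Cp G σ ρ P k z0 D BS L s e := by
      rintro x hx rfl
      refine ⟨x, hx, orb_refl _ _, fun u hu hu' => ?_⟩
      have := orb_t hch hu
      omega
    have hrp : RP G σ D1 BS q := by
      rcases hc with hc | hc | ⟨hc, -⟩
      · exact h.rpL q hc
      · exact ⟨_, h.fin ω, q, hc, orb_refl _ _, fun u hu hu' => by
          have := orb_t hch hu
          omega⟩
      · exact nlC_rp h hc
    have hq' : q ∈ nlC G σ ρ P k z0 D BS L s e ∨ q ∈ L ∨ q ∈ BS := by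
      rcases hc with hc | hc | ⟨hc, -⟩
      · exact Or.inr (Or.inl hc)
      · exact Or.inr (Or.inr hc)
      · exact Or.inl hc
    rcases h.bt q τ z hrp hs (by omega) hq hz h1 h2 with hzD | hzL | hzB
    rotate_left
    · exact hzT z (Or.inr hzL) rfl
    · exact hzT z (Or.inl hzB) rfl
    have hzC : z ∈ Cp G σ ρ P k z0 D BS L s e :=
      Or.inr ⟨hzD, τ, hs, by omega, hz, h1, q, hq', hq, h2⟩
    have h0z : host G (ρ ω) z τ = z := host_self hch hz.2
    have hb0 : G.b z0 ≤ τ := by have := h.zb; omega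
    obtain ⟨s1, s2⟩ := step_cases hch hz hN
    set z' := host G (ρ ω) z (τ + 1) with hz'
    have haz' : G.al z' (τ + 1) := host_al hch (by have := hz.1; omega) hN
    -- the end: `z'` in `BS ∪ L`
    have hend : z' ∈ BS ∪ L → ∃ e' ∈ BS ∪ L, Orb (ρ ω) z e' ∧
        ∀ u, Orb (ρ ω) z u → G.t u < G.t e' → u ∈ Cp G σ ρ P k z0 D BS L s e := by
      intro hx
      refine ⟨z', hx, s1, fun u hu hu' => ?_⟩
      rcases s2 u hu with rfl | h3
      · exact hzC
      · have := orb_t hch h3
        omega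
    -- continuing from `z'`
    have hcont : (∃ e' ∈ BS ∪ L, Orb (ρ ω) z' e' ∧
        ∀ u, Orb (ρ ω) z' u → G.t u < G.t e' → u ∈ Cp G σ ρ P k z0 D BS L s e) →
        ∃ e' ∈ BS ∪ L, Orb (ρ ω) z e' ∧
        ∀ u, Orb (ρ ω) z u → G.t u < G.t e' → u ∈ Cp G σ ρ P k z0 D BS L s e := by
      rintro ⟨e', k1, k2, k3⟩
      refine ⟨e', k1, orb_trans s1 k2, fun u hu hu' => ?_⟩
      rcases s2 u hu with rfl | h3
      · exact hzC
      · exact k3 u h3 hu'
    by_cases hB : G.r z' ≤ G.r (host G σ.pi z0 (τ + 1))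
    · obtain ⟨τ', k1, k2, k3⟩ := order h.ch hch hb0 (by exact hz.1) (Nat.le_succ τ) hN
        (by rw [h0z]; exact h1) hB
      have k4 : τ' = τ + 1 := by omega
      rw [k4] at k3
      refine hend (Or.inl ?_)
      rw [hz', ← k3]
      exact h.bh (τ + 1) (by omega) hτe
    · push Not at hB
      by_cases hbar : q ∈ L ∨ q ∈ BS
      · have hqt : τ < G.t q ∨ ∃ e' ∈ BS ∪ L, Orb (ρ ω) z e' ∧
            ∀ u, Orb (ρ ω) z u → G.t u < G.t e' → u ∈ Cp G σ ρ P k z0 D BS L s e := by
          rcases hbar with hb | hb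
          · obtain ⟨sq, k1, k2⟩ := h.dcL q hb
            by_cases k3 : sq < τ
            · rcases k2 τ k3 hq z hz h1 h2 with k4 | k4
              · exact Or.inr (hzT z (Or.inr k4) rfl)
              · exact Or.inr (hzT z (Or.inl k4) rfl)
            · left
              omega
          · exact Or.inl (bs_t h hb hq h1 h2)
        rcases hqt with hqt | hqt
        · have hle : G.r z' ≤ G.r q := (order_bar hch hz.1 hq.1 (Nat.le_succ τ) hN hqt).1 (by rw [h0z]; exact h2)
          rcases hle.lt_or_eq with hlt | heq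
          · refine hcont (ih (τ + 1) (by omega) (by omega) hτe z' q haz' ⟨by have := hq.1; omega, hqt⟩ hB hlt ?_)
            rcases hbar with hb | hb
            · exact Or.inl hb
            · exact Or.inr (Or.inl hb)
          · have heq' : z' = q := G.r_inj heq
            refine hend ?_
            rw [heq']
            rcases hbar with hb | hb
            · exact Or.inr hb
            · exact Or.inl hb
        · exact hqt
      · have hcC : q ∈ nlC G σ ρ P k z0 D BS L s e ∧
            LV G (nlC G σ ρ P k z0 D BS L s e) (BS ∪ L) (ρ ω) q := by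
          rcases hc with hc | hc | hc
          · exact absurd (Or.inl hc) hbar
          · exact absurd (Or.inr hc) hbar
          · exact hc
        obtain ⟨hqC, e1, k1, k2, k3, k4⟩ := hcC
        have h0q : host G (ρ ω) q τ = q := host_self hch hq.2
        obtain ⟨p1, p2⟩ := step_cases hch hq hN
        set q' := host G (ρ ω) q (τ + 1) with hqq
        have haq' : G.al q' (τ + 1) := host_al hch (by have := hq.1; omega) hN
        have hqe1 : Orb (ρ ω) q' e1 := by
          rcases p2 e1 k3 with k5 | k5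
          · rw [k5] at k2
            exact absurd hqC k2
          · exact k5
        have hle : G.r z' ≤ G.r q' := order_one hch hz.1 hq.1 (Nat.le_succ τ) hN (by rw [h0z, h0q]; exact h2.le)
        rcases hle.lt_or_eq with hlt | heq
        · refine hcont (ih (τ + 1) (by omega) (by omega) hτe z' q' haz' haq' hB hlt ?_)
          by_cases h5 : q' = e1
          · rw [h5]
            rcases k1 with k1 | k1
            · exact Or.inr (Or.inl k1)
            · exact Or.inl k1
          · right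
            right
            have h6 : G.t q' < G.t e1 := by
              rcases (orb_t hch hqe1).lt_or_eq with h6 | h6
              · exact h6
              · exact absurd (G.t_inj h6) h5
            exact ⟨k4 q' p1 h6, e1, k1, k2, hqe1, fun u hu hu' => k4 u (orb_trans p1 hu) hu'⟩
        · have heq' : z' = q' := G.r_inj heq
          refine hcont ⟨e1, k1, ?_, fun u hu hu' => Or.inl (k4 u ?_ hu')⟩
          · rw [heq']
            exact hqe1
          · rw [heq'] at hu
            exact orb_trans p1 hu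

/-- The closure is good, so it is the label itself. -/
theorem cp_eq (h : NL G σ ρ P k z0 D1 D BS L si s e) :
    Cp G σ ρ P k z0 D BS L s e ⊆ nlC G σ ρ P k z0 D BS L s e := by
  have hsub : Cp G σ ρ P k z0 D BS L s e ⊆ C0 G σ z0 D s e := by
    rintro z (hz | ⟨hz, τ, h1, h2, h3, h4, q, -, -, -⟩)
    · exact mx_sub hz
    · exact ⟨hz, by have := h3.2; omega, τ, h1, h2, h3, h4⟩
  refine sub_mx hsub ?_
  have hS : ∀ u ∈ BS ∪ L, u ∉ Cp G σ ρ P k z0 D BS L s e := fun u hu h' => nl_S h u hu (hsub h').1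
  rintro z (hz | ⟨hz, τ, h1, h2, h3, h4, q, h5, h6, h7⟩)
  · refine (nlC_good h z hz).trans (h.pm _ _ fun ω hω => ?_)
    exact lv_mono (fun u hu => Or.inl hu) hS hω
  · have key : ∀ ω, (q ∈ L ∨ q ∈ BS ∨ (q ∈ nlC G σ ρ P k z0 D BS L s e ∧
        LV G (nlC G σ ρ P k z0 D BS L s e) (BS ∪ L) (ρ ω) q)) →
        LV G (Cp G σ ρ P k z0 D BS L s e) (BS ∪ L) (ρ ω) z := by
      intro ω hω
      obtain ⟨e', k1, k2, k3⟩ := squeeze h ω _ τ rfl h1 h2 z q h3 h6 h4 h7 hω
      exact ⟨e', k1, hS e' k1, k2, k3⟩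
    rcases h5 with h5 | h5 | h5
    · exact (nlC_good h q h5).trans (h.pm _ _ fun ω hω => key ω (Or.inr (Or.inr ⟨h5, hω⟩)))
    · exact h.p1.trans (h.pm _ _ fun ω _ => key ω (Or.inl h5))
    · exact h.p1.trans (h.pm _ _ fun ω _ => key ω (Or.inr (Or.inl h5)))

/-- DC: the label together with `L ∪ BS` is closed downwards in the window. -/
theorem nl_dc (h : NL G σ ρ P k z0 D1 D BS L si s e) {τ : ℕ} (hs : s < τ) (he : τ ≤ e) {q z : V}
    (hq : q ∈ nlC G σ ρ P k z0 D BS L s e ∨ q ∈ L ∨ q ∈ BS) (haq : G.al q τ) (haz : G.al z τ)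
    (h1 : G.r (host G σ.pi z0 τ) < G.r z) (h2 : G.r z < G.r q) :
    z ∈ nlC G σ ρ P k z0 D BS L s e ∨ z ∈ L ∨ z ∈ BS := by
  have hrp : RP G σ D1 BS q := by
    rcases hq with hq | hq | hq
    · exact nlC_rp h hq
    · exact h.rpL q hq
    · refine ⟨σ.pi, ⟨h.ch, fun v _ => rfl⟩, q, hq, orb_refl _ _, fun u hu hu' => ?_⟩
      have := orb_t h.ch hu
      omega
  rcases h.bt q τ z hrp hs he haq haz h1 h2 with hzD | hz
  · exact Or.inl (cp_eq h (Or.inr ⟨hzD, τ, hs, he, haz, h1, q, hq, haq, h2⟩))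
  · exact Or.inr hz

/-- A vertex of the label is above the path at all times of the window. -/
theorem nl_above (h : NL G σ ρ P k z0 D1 D BS L si s e) {x : V} (hx : x ∈ nlC G σ ρ P k z0 D BS L s e)
    {τ : ℕ} (hs : s < τ) (ha : G.al x τ) : G.r (host G σ.pi z0 τ) < G.r x := by
  obtain ⟨hxD, -, τ1, h1, h2, h3, h4⟩ := mx_sub hx
  have hte := (nlC_t h hx).2
  have heN := h.eN
  have hτe : τ ≤ e := by have := ha.2; omega
  have hne : ∀ τ', s < τ' → τ' ≤ e → host G σ.pi z0 τ' ≠ x := by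
    intro τ' k1 k2 k3
    have := h.bh τ' k1 k2
    rw [k3] at this
    exact h.DBS x hxD this
  have hz0 := h.zb
  rcases le_total τ1 τ with h5 | h5
  · have := (order_bar h.ch (by omega : G.b z0 ≤ τ1) h3.1 h5 (by omega) ha.2).1 h4
    rcases this.lt_or_eq with h6 | h6
    · exact h6
    · exact absurd (G.r_inj h6) (hne τ hs hτe)
  · by_contra hc
    push Not at hc
    rcases hc.lt_or_eq with h6 | h6
    · have := (order_bar h.ch (by omega : G.b z0 ≤ τ) ha.1 h5 (by omega) h3.2).2.1 h6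
      omega
    · exact hne τ hs hτe (G.r_inj h6).symm

/-- LENS (v): the new label has the lens property after time `s`. -/
theorem nl_lens (h : NL G σ ρ P k z0 D1 D BS L si s e) : LENS G σ (nlC G σ ρ P k z0 D BS L s e) s := by
  intro τ hs x z x' w π π' hπ hπ' ax az ax' h1 h2 p p'
  have hx := pd_start hπ.1 p
  have hx' := pd_start hπ'.1 p'
  have hzD : z ∈ D := h.lens τ (lt_of_le_of_lt h.sis hs) x z x' w π π' hπ hπ' ax az ax' h1 h2
    (pd_mono (nlC_sub h) p) (pd_mono (nlC_sub h) p')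
  have h3 := nl_above h hx hs ax
  have h4 := (nlC_t h hx').2
  exact cp_eq h (Or.inr ⟨hzD, τ, hs, by have := ax'.2; omega, az, by omega, x', Or.inl hx', ax', h2⟩)

/-- LENS (iii): the rest of the cell keeps the lens property. -/
theorem nl_rest (h : NL G σ ρ P k z0 D1 D BS L si s e) :
    LENS G σ (D \ nlC G σ ρ P k z0 D BS L s e) si := by
  intro τ hs x z x' w π π' hπ hπ' ax az ax' h1 h2 p p'
  have hsub : D \ nlC G σ ρ P k z0 D BS L s e ⊆ D := fun u hu => hu.1
  have hw := p.2 w p.1 le_rfl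
  have hwi := h.Di w hw.1
  have hwN : G.t w < G.N := G.t_in w hwi.1 hwi.2
  have hxw : G.t x ≤ G.t w := orb_t hπ.1 p.1
  have hx'w : G.t x' ≤ G.t w := orb_t hπ'.1 p'.1
  have hzD : z ∈ D := h.lens τ hs x z x' w π π' hπ hπ' ax az ax' h1 h2 (pd_mono hsub p) (pd_mono hsub p')
  refine ⟨hzD, fun hzC => ?_⟩
  obtain ⟨ω, e1, he1, heC, ho, hbef⟩ := nlC_lv h hzC
  have hch := (h.fin ω).1
  -- the route of `z` is strictly between the two paths as long as it is in the label
  have key : ∀ n, τ + n ≤ G.t w → (∀ m, m ≤ n → host G (ρ ω) z (τ + m) ∈ nlC G σ ρ P k z0 D BS L s e) →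
      G.r (host G π x (τ + n)) < G.r (host G (ρ ω) z (τ + n)) ∧
      G.r (host G (ρ ω) z (τ + n)) < G.r (host G π' x' (τ + n)) := by
    intro n
    induction n with
    | zero =>
      intro _ _
      rw [Nat.add_zero, host_self hπ.1 ax.2, host_self hch az.2, host_self hπ'.1 ax'.2]
      exact ⟨h1, h2⟩
    | succ n ih =>
      intro hn hm
      obtain ⟨i1, i2⟩ := ih (by omega) fun m hm' => hm m (by omega)
      have hC := hm (n + 1) le_rfl
      have e1 : τ + (n + 1) = τ + n + 1 := by omega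
      have q1 : host G π x (τ + (n + 1)) ∈ D \ nlC G σ ρ P k z0 D BS L s e :=
        pd_host hπ.1 p hwi (by have := ax.1; omega) hn hwN.le
      have q2 : host G π' x' (τ + (n + 1)) ∈ D \ nlC G σ ρ P k z0 D BS L s e :=
        pd_host hπ'.1 p' hwi (by have := ax'.1; omega) hn hwN.le
      constructor
      · by_contra hc
        push Not at hc
        obtain ⟨τ', k1, k2, k3⟩ := order hπ.1 hch (by have := ax.1; omega) (by have := az.1; omega)
          (by omega : τ + n ≤ τ + (n + 1)) (by omega) i1 hc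
        have k4 : τ' = τ + (n + 1) := by omega
        rw [k4] at k3
        rw [k3] at q1
        exact q1.2 hC
      · by_contra hc
        push Not at hc
        obtain ⟨τ', k1, k2, k3⟩ := order hch hπ'.1 (by have := az.1; omega) (by have := ax'.1; omega)
          (by omega : τ + n ≤ τ + (n + 1)) (by omega) i2 hc
        have k4 : τ' = τ + (n + 1) := by omega
        rw [k4] at k3
        rw [← k3] at q2
        exact q2.2 hC
  -- hosts of `z` before `e1` are in the label
  have hin : ∀ θ, τ ≤ θ → θ ≤ G.N → G.t (host G (ρ ω) z θ) < G.t e1 →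
      host G (ρ ω) z θ ∈ nlC G σ ρ P k z0 D BS L s e := fun θ _ _ hlt => hbef _ (host_orb G _ _ _) hlt
  have he1D : e1 ∉ D := nl_S h e1 he1
  by_cases hlate : G.t (host G (ρ ω) z (G.t w)) < G.t e1
  · -- still in the label at the time when the two paths meet
    have hτw : τ ≤ G.t w := by have := ax.2; omega
    obtain ⟨n, hn⟩ := Nat.exists_eq_add_of_le hτw
    have hall : ∀ m, m ≤ n → host G (ρ ω) z (τ + m) ∈ nlC G σ ρ P k z0 D BS L s e := by
      intro m hm
      refine hin _ (by omega) (by omega) (lt_of_le_of_lt ?_ hlate)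
      have h5 := host_orb G (ρ ω) (host G (ρ ω) z (τ + m)) (G.t w)
      rw [host_add hch (by have := az.1; omega) (by omega) hwN.le] at h5
      exact orb_t hch h5
    obtain ⟨j1, j2⟩ := key n (by omega) hall
    rw [← hn, host_t hπ.1 p.1 hwi] at j1
    rw [← hn, host_t hπ'.1 p'.1 hwi] at j2
    omega
  · -- the route arrives in `BS ∪ L` before
    have hex : ∃ n, τ + n ≤ G.t w ∧ ¬ G.t (host G (ρ ω) z (τ + n)) < G.t e1 := by
      have hτw : τ ≤ G.t w := by have := ax.2; omega
      obtain ⟨n, hn⟩ := Nat.exists_eq_add_of_le hτw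
      exact ⟨n, by omega, by rw [← hn]; exact hlate⟩
    classical
    have hf := Nat.find_spec hex
    set n := Nat.find hex with hn
    have hmin : ∀ m, m < n → τ + m ≤ G.t w → G.t (host G (ρ ω) z (τ + m)) < G.t e1 := by
      intro m hm hm'
      by_contra hc
      exact Nat.find_min hex hm ⟨hm', hc⟩
    have hn0 : n ≠ 0 := by
      intro h0
      have h5 := hf.2
      rw [h0, Nat.add_zero, host_self hch az.2] at h5
      have h6 := orb_t hch ho
      have h7 : G.t z = G.t e1 := by omega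
      rw [G.t_inj h7] at hzC
      exact heC hzC
    obtain ⟨m, hm⟩ := Nat.exists_eq_succ_of_ne_zero hn0
    have hm1 : n = m + 1 := hm
    obtain ⟨j1, j2⟩ := key m (by omega) fun j hj =>
      hin _ (by omega) (by omega) (hmin j (by omega) (by omega))
    have hbz := az.1
    -- the host at `τ + n` is `e1`
    have hhost : host G (ρ ω) z (τ + n) = e1 := by
      have h5 := hmin m (by omega) (by omega)
      have e2 : τ + n = τ + m + 1 := by omega
      rcases host_step hch (by omega : G.b z ≤ τ + m) (by omega) with ⟨h6, h7⟩ | ⟨h6, h7⟩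
      · exfalso
        have := hf.2
        rw [e2, h6] at this
        exact this h5
      · rw [e2, h6]
        -- next vertex is at or before `e1`
        have h8 : Orb (ρ ω) (host G (ρ ω) z (τ + m)) e1 := orb_comp hch (host_orb G _ _ _) ho h5.le
        rcases orb_head' h8 with h9 | h9
        · rw [← h9] at h5
          exact absurd h5 (lt_irrefl _)
        · have h10 := orb_t hch h9
          have h11 := hf.2
          rw [e2, h6] at h11
          exact G.t_inj (by omega)
    have q1 : host G π x (τ + n) ∈ D \ nlC G σ ρ P k z0 D BS L s e :=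
      pd_host hπ.1 p hwi (by have := ax.1; omega) hf.1 hwN.le
    have q2 : host G π' x' (τ + n) ∈ D \ nlC G σ ρ P k z0 D BS L s e :=
      pd_host hπ'.1 p' hwi (by have := ax'.1; omega) hf.1 hwN.le
    have r1 : G.r (host G π x (τ + n)) < G.r (host G (ρ ω) z (τ + n)) := by
      by_contra hc
      push Not at hc
      obtain ⟨τ', k1, k2, k3⟩ := order hπ.1 hch (by have := ax.1; omega) (by omega)
        (by omega : τ + m ≤ τ + n) (by omega) j1 hc
      have k4 : τ' = τ + n := by omega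
      rw [k4, hhost] at k3
      rw [k3] at q1
      exact he1D q1.1
    have r2 : G.r (host G (ρ ω) z (τ + n)) < G.r (host G π' x' (τ + n)) := by
      by_contra hc
      push Not at hc
      obtain ⟨τ', k1, k2, k3⟩ := order hch hπ'.1 (by omega) (by have := ax'.1; omega)
        (by omega : τ + m ≤ τ + n) (by omega) j2 hc
      have k4 : τ' = τ + n := by omega
      rw [k4, hhost] at k3
      rw [← k3] at q2
      exact he1D q2.1
    rw [hhost] at r1 r2
    have hN' : τ + n ≤ G.N := by omega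
    have a1 : G.al (host G π x (τ + n)) (τ + n) := host_al hπ.1 (by have := ax.1; omega) hN'
    have a2 : G.al e1 (τ + n) := by
      rw [← hhost]
      exact host_al hch (by omega) hN'
    have a3 : G.al (host G π' x' (τ + n)) (τ + n) := host_al hπ'.1 (by have := ax'.1; omega) hN'
    exact he1D (h.lens (τ + n) (by omega) _ e1 _ w π π' hπ hπ' a1 a2 a3 r1 r2
      (pd_mono hsub (pd_rest hπ.1 p hwi (by have := ax.1; omega) hf.1 hwN.le))
      (pd_mono hsub (pd_rest hπ'.1 p' hwi (by have := ax'.1; omega) hf.1 hwN.le)))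

end Pool.Agent.W_a4f561_P97
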