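import Pool.Agent.W_a4f561_P97.NewL97

/-!
MP_a4f561_co (polylog pages): (I1) of the old cell after a new label: leaving `D` in `E` gives leaving `D \ C` in
`E ∪ C` (for the same `ω`). (I1) of the new cell is `nlC_good`.
-/

set_option autoImplicit false

namespace Pool.Agent.W_a4f561_P97

open Pool.Agent.W_a4f561_h26 Pool.Agent.W_a4f561_P73

variable {V : Type} {G : Bars V}

/-- A route which leaves `D` in `E` leaves `D \ C` in `E ∪ C`. -/
theorem lv_cut {ρ : V → V} {D E C : Set V} {z : V} (h : LV G D E ρ z) : LV G (D \ C) (E ∪ C) ρ z := by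
  classical
  obtain ⟨e, he, heD, h1, h2⟩ := h
  by_cases hc : ∃ n, ∃ c, G.t c = n ∧ c ∈ C ∧ Orb ρ z c ∧ G.t c < G.t e
  · obtain ⟨c, k1, k2, k3, k4⟩ := Nat.find_spec hc
    refine ⟨c, Or.inr k2, fun h' => h'.2 k2, k3, fun u hu hu' => ⟨h2 u hu (hu'.trans k4), fun huC => ?_⟩⟩
    exact Nat.find_min hc (m := G.t u) (by omega) ⟨u, rfl, huC, hu, hu'.trans k4⟩
  · refine ⟨e, Or.inl he, fun h' => heD h'.1, h1, fun u hu hu' => ⟨h2 u hu hu', fun huC => hc ⟨_, u, rfl, huC, hu, hu'⟩⟩⟩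

/-- (I1) of the old cell. -/
theorem i1_cut {Ω : Type} {ρ : Ω → V → V} {P : (Ω → Prop) → ℝ}
    (hP : ∀ A B : Ω → Prop, (∀ ω, A ω → B ω) → P A ≤ P B) {D E C : Set V} {z : V} {κ : ℝ}
    (h : κ ≤ P (fun ω => LV G D E (ρ ω) z)) : κ ≤ P (fun ω => LV G (D \ C) (E ∪ C) (ρ ω) z) :=
  h.trans (hP _ _ fun _ hω => lv_cut hω)

end Pool.Agent.W_a4f561_P97
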