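import Pool.Agent.W_a4f561_P73.PDef

/-!
MP_a4f561_co (polylog pages): pruning. A set `C` is good if from each of its vertices the route leaves `C` in `S`
with probability at least `k`. The union of all good sets is good and contains every vertex from which the route
leaves `C0` in `S` with probability at least `card V * k`.
-/

set_option autoImplicit false

namespace Pool.Agent.W_a4f561_P97

open Pool.Agent.W_a4f561_h26 Pool.Agent.W_a4f561_P73

variable {V : Type} {G : Bars V} {Ω : Type}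

/-- `C` is good. -/
def Gd (G : Bars V) (ρ : Ω → V → V) (P : (Ω → Prop) → ℝ) (S : Set V) (k : ℝ) (C : Set V) : Prop :=
  ∀ z ∈ C, k ≤ P (fun ω => LV G C S (ρ ω) z)

/-- The largest good subset of `C0`. -/
def Mx (G : Bars V) (ρ : Ω → V → V) (P : (Ω → Prop) → ℝ) (S : Set V) (k : ℝ) (C0 : Set V) : Set V :=
  {z | ∃ C, C ⊆ C0 ∧ Gd G ρ P S k C ∧ z ∈ C}

theorem mx_sub {ρ : Ω → V → V} {P : (Ω → Prop) → ℝ} {S : Set V} {k : ℝ} {C0 : Set V} :
    Mx G ρ P S k C0 ⊆ C0 := by
  rintro z ⟨C, hC, -, hz⟩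
  exact hC hz

theorem sub_mx {ρ : Ω → V → V} {P : (Ω → Prop) → ℝ} {S : Set V} {k : ℝ} {C0 C : Set V}
    (hC : C ⊆ C0) (hg : Gd G ρ P S k C) : C ⊆ Mx G ρ P S k C0 := fun _ hz => ⟨C, hC, hg, hz⟩

/-- Leaving a smaller set in `S` is leaving the larger one in `S`, if `S` is disjoint from the larger one. -/
theorem lv_mono {ρ : V → V} {C C' S : Set V} {z : V} (hCC : C ⊆ C') (hS : ∀ e ∈ S, e ∉ C')
    (h : LV G C S ρ z) : LV G C' S ρ z := by
  obtain ⟨e, he, -, h1, h2⟩ := h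
  exact ⟨e, he, hS e he, h1, fun u hu hu' => hCC (h2 u hu hu')⟩

theorem mx_good {ρ : Ω → V → V} {P : (Ω → Prop) → ℝ}
    (hP : ∀ A B : Ω → Prop, (∀ ω, A ω → B ω) → P A ≤ P B) {S : Set V} {k : ℝ} {C0 : Set V}
    (hS : ∀ e ∈ S, e ∉ C0) : Gd G ρ P S k (Mx G ρ P S k C0) := by
  rintro z ⟨C, hC, hg, hz⟩
  refine (hg z hz).trans (hP _ _ fun ω h => ?_)
  exact lv_mono (sub_mx hC hg) (fun e he h' => hS e he (mx_sub h')) h

/-- Pruning. -/
theorem prune {ρ : Ω → V → V} (hρ : ∀ ω, Ch G (ρ ω)) {P : (Ω → Prop) → ℝ}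
    (hP : ∀ A B : Ω → Prop, (∀ ω, A ω → B ω) → P A ≤ P B)
    (hP2 : ∀ A B : Ω → Prop, P (fun ω => A ω ∨ B ω) ≤ P A + P B) {S : Set V} {k : ℝ} (hk : 0 < k) {y : V} :
    ∀ (n : ℕ) (A : Finset V), A.card = n → (∀ e ∈ S, e ∉ A) → y ∈ A →
      (n : ℝ) * k ≤ P (fun ω => LV G (A : Set V) S (ρ ω) y) →
      ∃ C : Set V, C ⊆ (A : Set V) ∧ Gd G ρ P S k C ∧ y ∈ C := by
  classical
  intro n
  induction n with
  | zero =>
    intro A hA _ hy _
    rw [Finset.card_eq_zero] at hA
    rw [hA] at hy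
    exact absurd hy (Finset.notMem_empty _)
  | succ n ih =>
    intro A hA hS hy hp
    by_cases hg : Gd G ρ P S k (A : Set V)
    · exact ⟨A, le_rfl, hg, hy⟩
    · unfold Gd at hg
      push Not at hg
      obtain ⟨z, hz, hlt⟩ := hg
      have hzy : z ≠ y := by
        rintro rfl
        have h1 : (1 : ℝ) * k ≤ ((n + 1 : ℕ) : ℝ) * k := by
          apply mul_le_mul_of_nonneg_right _ hk.le
          push_cast
          have : (0 : ℝ) ≤ n := Nat.cast_nonneg n
          linarith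
        rw [one_mul] at h1
        linarith
      have hz' : z ∈ A := hz
      have hyA : y ∈ A.erase z := Finset.mem_erase.mpr ⟨hzy.symm, hy⟩
      have hcard : (A.erase z).card = n := by rw [Finset.card_erase_of_mem hz', hA]; rfl
      have hS' : ∀ e ∈ S, e ∉ A.erase z := fun e he h' => hS e he (Finset.mem_of_mem_erase h')
      have key : P (fun ω => LV G (A : Set V) S (ρ ω) y) ≤
          P (fun ω => LV G ((A.erase z : Finset V) : Set V) S (ρ ω) y) + P (fun ω => LV G (A : Set V) S (ρ ω) z) := by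
        refine (hP _ _ fun ω h => ?_).trans (hP2 _ _)
        obtain ⟨e, he, heA, h1, h2⟩ := h
        by_cases hv : Orb (ρ ω) y z ∧ G.t z < G.t e
        · right
          refine ⟨e, he, heA, orb_comp (hρ ω) hv.1 h1 hv.2.le, fun u hu hu' => h2 u ?_ hu'⟩
          exact orb_trans hv.1 hu
        · left
          refine ⟨e, he, fun h' => heA (Finset.mem_of_mem_erase h'), h1, fun u hu hu' => ?_⟩
          have h3 := h2 u hu hu'
          refine Finset.mem_coe.mpr (Finset.mem_erase.mpr ⟨?_, h3⟩)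
          rintro rfl
          exact hv ⟨hu, hu'⟩
      obtain ⟨C, hC, hg', hyC⟩ := ih (A.erase z) hcard hS' hyA (by
        have h4 : ((n + 1 : ℕ) : ℝ) * k = (n : ℝ) * k + k := by push_cast; ring
        rw [h4] at hp
        linarith)
      exact ⟨C, fun u hu => Finset.mem_of_mem_erase (hC hu), hg', hyC⟩

/-- Every vertex of `C0` with a good chance is in the largest good subset. -/
theorem mem_mx [Fintype V] {ρ : Ω → V → V} (hρ : ∀ ω, Ch G (ρ ω)) {P : (Ω → Prop) → ℝ}
    (hP : ∀ A B : Ω → Prop, (∀ ω, A ω → B ω) → P A ≤ P B)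
    (hP2 : ∀ A B : Ω → Prop, P (fun ω => A ω ∨ B ω) ≤ P A + P B) {S C0 : Set V} {k : ℝ} (hk : 0 < k) {y : V}
    (hS : ∀ e ∈ S, e ∉ C0) (hy : y ∈ C0)
    (hp : (Fintype.card V : ℝ) * k ≤ P (fun ω => LV G C0 S (ρ ω) y)) : y ∈ Mx G ρ P S k C0 := by
  classical
  have hA : ((Finset.univ.filter (fun v => v ∈ C0) : Finset V) : Set V) = C0 := by ext v; simp
  obtain ⟨C, hC, hg, hyC⟩ := prune hρ hP hP2 (S := S) hk (y := y) _
    (Finset.univ.filter (fun v => v ∈ C0)) rfl (fun e he h => hS e he (by simpa using h)) (by simpa using hy) (by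
      rw [hA]
      refine le_trans ?_ hp
      apply mul_le_mul_of_nonneg_right _ hk.le
      exact_mod_cast Finset.card_le_univ _)
  rw [hA] at hC
  exact ⟨C, hC, hg, hyC⟩

end Pool.Agent.W_a4f561_P97
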